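import Pool.Agent.L7h1.AS.Stm

set_option autoImplicit false

namespace Pool.Agent.L7h1.AS

open Finset Filter

lemma lam_nonneg (n : ℕ) : 0 ≤ lam n := by
  unfold lam
  split_ifs with h
  · exact Real.log_nonneg (by exact_mod_cast h.one_lt.le)
  · exact le_rfl

lemma sum_split (H : ℕ) (f : ℕ → ℕ → ℝ) : ∑ a ∈ Icc 1 H, ∑ b ∈ Icc 1 H, f a b =
    ∑ a ∈ Icc 1 H, (f a a + ∑ b ∈ (Icc 1 H).filter (fun b => b ≠ a), f a b) := by
  refine sum_congr rfl fun a ha => ?_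
  rw [← sum_filter_add_sum_filter_not (Icc 1 H) (fun b => b = a) (f a)]
  congr 1
  rw [filter_eq' (Icc 1 H) a, if_pos ha, sum_singleton]

lemma sumF (H N : ℕ) (c : ℕ → ℝ) : ∑ n ∈ Icc 1 N, F H c n ^ 2 =
    ∑ a ∈ Icc 1 H, (c a ^ 2 * ∑ n ∈ Icc 1 N, lam (n + a) ^ 2 +
      ∑ b ∈ (Icc 1 H).filter (fun b => b ≠ a),
        c a * c b * ∑ n ∈ Icc 1 N, lam (n + a) * lam (n + b)) := by
  have h1 : ∀ n, F H c n ^ 2 =
      ∑ a ∈ Icc 1 H, ∑ b ∈ Icc 1 H, c a * c b * (lam (n + a) * lam (n + b)) := by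
    intro n
    unfold F
    rw [sq, sum_mul_sum]
    exact sum_congr rfl fun a _ => sum_congr rfl fun b _ => by ring
  calc ∑ n ∈ Icc 1 N, F H c n ^ 2
      = ∑ n ∈ Icc 1 N, ∑ a ∈ Icc 1 H, ∑ b ∈ Icc 1 H, c a * c b * (lam (n + a) * lam (n + b)) :=
        sum_congr rfl fun n _ => h1 n
    _ = ∑ a ∈ Icc 1 H, ∑ b ∈ Icc 1 H, c a * c b * ∑ n ∈ Icc 1 N, lam (n + a) * lam (n + b) := by
        rw [sum_comm]
        refine sum_congr rfl fun a _ => ?_
        rw [sum_comm]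
        exact sum_congr rfl fun b _ => by rw [mul_sum]
    _ = _ := by
        rw [sum_split]
        refine sum_congr rfl fun a _ => ?_
        congr 1
        rw [sq]
        congr 1
        exact sum_congr rfl fun n _ => by rw [sq]

lemma S_nonneg (hC : S_C2B) (d : ℕ) : 0 ≤ S d := by
  unfold S
  split_ifs
  · refine mul_nonneg (by linarith [hC.1]) (prod_nonneg fun p hp => ?_)
    have h2 : (3 : ℝ) ≤ p := by exact_mod_cast (mem_filter.1 hp).2
    exact div_nonneg (by linarith) (by linarith)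
  · exact le_rfl

lemma Q_nonneg (P H : ℕ) (c : ℕ → ℝ) (hc : ∀ a, 0 ≤ c a) : 0 ≤ Q P H c :=
  sum_nonneg fun a _ => sum_nonneg fun b _ => mul_nonneg (mul_nonneg (hc a) (hc b)) (by positivity)

lemma QQ_nonneg (N H : ℕ) (c : ℕ → ℝ) (hc : ∀ a, 0 ≤ c a) : 0 ≤ QQ N H c :=
  mul_nonneg (Q_nonneg _ _ _ hc) (by positivity)

/-- the logarithm is large -/
lemma ev_log (T : ℝ) : ∃ X₀ : ℕ, ∀ N : ℕ, X₀ ≤ N → T ≤ Real.log N := by
  have h := (Real.tendsto_log_atTop.comp tendsto_natCast_atTop_atTop).eventually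
    (eventually_ge_atTop T)
  obtain ⟨X, hX⟩ := eventually_atTop.1 h
  exact ⟨X, fun N hN => hX N hN⟩

lemma ev_logN (η : ℝ) (hη : 0 < η) : ∃ X₀ : ℕ, ∀ N : ℕ, X₀ ≤ N → Real.log N ≤ η * N := by
  have h := (Real.isLittleO_log_id_atTop.comp_tendsto tendsto_natCast_atTop_atTop).def hη
  obtain ⟨X, hX⟩ := eventually_atTop.1 h
  refine ⟨max X 1, fun N hN => ?_⟩
  have h1 := hX N ((le_max_left _ _).trans hN)
  simp only [Function.comp, id] at h1
  have h2 : (1 : ℝ) ≤ N := by exact_mod_cast (le_max_right _ _).trans hN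
  rw [Real.norm_of_nonneg (Real.log_nonneg h2), Real.norm_of_nonneg (by linarith)] at h1
  exact h1

/-- the real inequality of the assembly -/
lemma real_ineq (η N L A B D Qv P φ : ℝ) (hη : 0 < η) (hη1 : η ≤ 1 / 16) (hN : 0 < N) (hP : 0 < P)
    (hφ : 0 < φ) (hPN : P ≤ η * N) (hQ : 0 ≤ Qv) (hA : 0 ≤ A)
    (hB : (1 - η) * (N / φ) * Qv ≤ B) (hD : D ≤ (N / P + 1) * Qv) (hCS : B ^ 2 ≤ A * D) :
    (1 - 3 * η) * (N * (Qv * (P / φ ^ 2))) ≤ A := by
  rcases hQ.eq_or_lt with h0 | h0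
  · rw [← h0]
    simpa using hA
  have e1 : 0 ≤ (1 - η) * (N / φ) * Qv := by
    have : 0 ≤ 1 - η := by linarith
    positivity
  have h1 : ((1 - η) * (N / φ) * Qv) ^ 2 ≤ A * ((N / P + 1) * Qv) :=
    (pow_le_pow_left₀ e1 hB 2).trans (hCS.trans (mul_le_mul_of_nonneg_left hD hA))
  have h2 : N / P + 1 ≤ (N / P) * (1 + η) := by
    have : 1 ≤ N / P * η := by
      rw [div_mul_eq_mul_div, le_div_iff₀ hP]
      linarith
    linarith
  have h3 : ((1 - η) * (N / φ) * Qv) ^ 2 ≤ A * ((N / P) * (1 + η) * Qv) :=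
    h1.trans (mul_le_mul_of_nonneg_left (mul_le_mul_of_nonneg_right h2 hQ) hA)
  have h4 : (1 - η) ^ 2 * (N * (Qv * (P / φ ^ 2))) ≤ A * (1 + η) := by
    have h5 : 0 < N / P * Qv := by positivity
    refine le_of_mul_le_mul_right ?_ h5
    have e2 : (1 - η) ^ 2 * (N * (Qv * (P / φ ^ 2))) * (N / P * Qv) =
        ((1 - η) * (N / φ) * Qv) ^ 2 := by
      field_simp
    have e3 : A * (1 + η) * (N / P * Qv) = A * ((N / P) * (1 + η) * Qv) := by ring
    rw [e2, e3]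
    exact h3
  have h6 : 0 ≤ N * (Qv * (P / φ ^ 2)) := by positivity
  have h7 : (1 - 3 * η) * (1 + η) ≤ (1 - η) ^ 2 := by nlinarith
  have h8 : (1 - 3 * η) * (N * (Qv * (P / φ ^ 2))) * (1 + η) ≤ A * (1 + η) := by
    refine le_trans ?_ h4
    have := mul_le_mul_of_nonneg_right h7 h6
    linarith
  exact le_of_mul_le_mul_right h8 (by linarith)

theorem s_CORE (hC : S_C2B) (hG : S_GSQ) (hQ : S_QLB) (hF : S_FG) (hD : S_DIA) (hO : S_OFF)
    (hR : S_RES) (hS1 : S_SG1) (hT : S_TAIL) (hP : S_PZ) : S_CORE := by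
  intro C ε hε
  set η : ℝ := min ε (1 / 2) / 16 with hηd
  have hη : 0 < η := by positivity
  have hη1 : η ≤ 1 / 32 := by
    have := min_le_right ε (1 / 2); rw [hηd]; linarith
  have hηε : 16 * η ≤ ε := by
    have := min_le_left ε (1 / 2); rw [hηd]; linarith
  obtain ⟨X1, h1⟩ := hF C η hη
  obtain ⟨X2, h2⟩ := hD C η hη
  obtain ⟨X3, h3⟩ := hO C η hη
  obtain ⟨X4, h4⟩ := hT C η hη
  obtain ⟨X5, h5⟩ := hP 2
  obtain ⟨X6, h6⟩ := ev_logN η hη
  obtain ⟨X7, h7⟩ := ev_log (1 / η)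
  refine ⟨max (max (max X1 X2) (max X3 X4)) (max (max X5 X6) (max X7 1)), fun N hN H hH c hc => ?_⟩
  simp only [max_le_iff] at hN
  obtain ⟨⟨⟨hN1, hN2⟩, hN3, hN4⟩, ⟨hN5, hN6⟩, hN7, hN8⟩ := hN
  obtain ⟨hz, hP1, hPl⟩ := h5 N hN5
  set P := primorial (zN N) with hPd
  set φ : ℝ := (Nat.totient P : ℝ) with hφd
  have hφ : 0 < φ := by
    have : 0 < Nat.totient P := Nat.totient_pos.2 hP1
    rw [hφd]; exact_mod_cast this
  have hPr : (0 : ℝ) < P := by exact_mod_cast hP1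
  have hNr : (0 : ℝ) < N := by exact_mod_cast hN8
  have hL := h7 N hN7
  have hη2 : 32 ≤ 1 / η := by rw [le_div_iff₀ hη]; linarith
  have hL0 : 32 ≤ Real.log N := hη2.trans hL
  have hLη : 1 ≤ η * Real.log N := by
    rw [div_le_iff₀ hη] at hL
    linarith
  have hQn := Q_nonneg P H c hc
  have hcs := hQ P H c hP1 hc
  have hQQ : QQ N H c = Q P H c * ((P : ℝ) / φ ^ 2) := rfl
  have hcs2 : (∑ a ∈ Icc 1 H, c a) ^ 2 ≤ QQ N H c := by
    rw [hQQ, ← mul_div_assoc, le_div_iff₀ (by positivity)]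
    linarith
  have hQQn := QQ_nonneg N H c hc
  -- the lower bound of the square sum
  have hA := real_ineq η N (Real.log N) (∑ n ∈ Icc 1 N, F H c n ^ 2)
    (∑ n ∈ Icc 1 N, F H c n * G P H c n) (∑ n ∈ Icc 1 N, G P H c n ^ 2) (Q P H c) P φ hη (by linarith)
    hNr hPr hφ (hPl.trans (h6 N hN6)) hQn (sum_nonneg fun _ _ => sq_nonneg _)
    (h1 N hN1 P H hP1 hPl hH c hc) (hG P H N c hP1 hc) (sum_mul_sq_le_sq_mul_sq _ _ _)
  rw [← hQQ] at hA
  -- the upper bound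
  set Pi : ℝ := ∑ a ∈ Icc 1 H, ∑ b ∈ (Icc 1 H).filter (fun b => b ≠ a),
        c a * c b * (pi2 N (dst a b) : ℝ) with hPi
  have hle : ∀ a ∈ Icc 1 H, (a : ℝ) ≤ Real.log N ^ C := fun a ha =>
    le_trans (by exact_mod_cast (mem_Icc.1 ha).2) hH
  have hU : ∑ n ∈ Icc 1 N, F H c n ^ 2 ≤ (1 + η) * N * Real.log N * ∑ a ∈ Icc 1 H, c a ^ 2 +
      (1 + η) * Real.log N ^ 2 * Pi + N / Real.log N ^ 2 * (∑ a ∈ Icc 1 H, c a) ^ 2 := by
    rw [sumF]
    calc _ ≤ ∑ a ∈ Icc 1 H, (c a ^ 2 * ((1 + η) * N * Real.log N) +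
          ∑ b ∈ (Icc 1 H).filter (fun b => b ≠ a),
            c a * c b * ((1 + η) * Real.log N ^ 2 * pi2 N (dst a b) + N / Real.log N ^ 2)) := by
          refine sum_le_sum fun a ha => add_le_add
            (mul_le_mul_of_nonneg_left (h2 N hN2 a (hle a ha)) (sq_nonneg _))
            (sum_le_sum fun b hb => mul_le_mul_of_nonneg_left ?_ (mul_nonneg (hc a) (hc b)))
          rw [mem_filter] at hb
          exact h3 N hN3 a b (Ne.symm hb.2) (hle a ha) (hle b hb.1)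
      _ = (1 + η) * N * Real.log N * ∑ a ∈ Icc 1 H, c a ^ 2 + (1 + η) * Real.log N ^ 2 * Pi +
          N / Real.log N ^ 2 * ∑ a ∈ Icc 1 H, ∑ b ∈ (Icc 1 H).filter (fun b => b ≠ a),
            c a * c b := by
          rw [hPi, mul_sum, mul_sum, mul_sum, ← sum_add_distrib, ← sum_add_distrib]
          refine sum_congr rfl fun a _ => ?_
          rw [mul_sum, mul_sum, add_assoc, ← sum_add_distrib]
          congr 1
          · ring
          · exact sum_congr rfl fun b _ => by ring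
      _ ≤ _ := by
          gcongr
          rw [sq, sum_mul_sum]
          exact sum_le_sum fun a _ => sum_le_sum_of_subset_of_nonneg (filter_subset _ _)
            fun b _ _ => mul_nonneg (hc a) (hc b)
  have hPi0 : 0 ≤ Pi := sum_nonneg fun a _ => sum_nonneg fun b _ =>
    mul_nonneg (mul_nonneg (hc a) (hc b)) (Nat.cast_nonneg _)
  have hc2 : 0 ≤ ∑ a ∈ Icc 1 H, c a ^ 2 := sum_nonneg fun _ _ => sq_nonneg _
  refine ⟨?_, hcs2, ?_⟩
  · have e1 : N / Real.log N ^ 2 * (∑ a ∈ Icc 1 H, c a) ^ 2 ≤ η * N * QQ N H c := by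
      refine mul_le_mul ?_ hcs2 (sq_nonneg _) (by positivity)
      rw [div_le_iff₀ (by positivity)]
      have : 1 ≤ η * Real.log N ^ 2 := by nlinarith
      nlinarith
    have e2 : (1 - 4 * η) * QQ N H c ≤ (1 + η) * (Real.log N * ∑ a ∈ Icc 1 H, c a ^ 2 +
        Real.log N ^ 2 / N * Pi) := by
      have e3 : (1 - 4 * η) * QQ N H c * N ≤ (1 + η) * (Real.log N * ∑ a ∈ Icc 1 H, c a ^ 2 +
        Real.log N ^ 2 / N * Pi) * N := by
        have e4 : (1 + η) * (Real.log N * ∑ a ∈ Icc 1 H, c a ^ 2 +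
          Real.log N ^ 2 / N * Pi) * N = (1 + η) * N * Real.log N * ∑ a ∈ Icc 1 H, c a ^ 2 +
            (1 + η) * Real.log N ^ 2 * Pi := by
          field_simp
        rw [e4]
        linarith
      exact le_of_mul_le_mul_right e3 hNr
    have e5 : (1 - ε) * QQ N H c * (1 + η) ≤ (1 - 4 * η) * QQ N H c := by
      have : (1 - ε) * (1 + η) ≤ 1 - 4 * η := by nlinarith
      calc (1 - ε) * QQ N H c * (1 + η) = ((1 - ε) * (1 + η)) * QQ N H c := by ring
        _ ≤ _ := mul_le_mul_of_nonneg_right this hQQn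
    have e6 : (1 - ε) * QQ N H c ≤ Real.log N * ∑ a ∈ Icc 1 H, c a ^ 2 +
        Real.log N ^ 2 / N * Pi := by
      refine le_of_mul_le_mul_right ?_ (show (0 : ℝ) < 1 + η by linarith)
      calc (1 - ε) * QQ N H c * (1 + η) ≤ (1 - 4 * η) * QQ N H c := e5
        _ ≤ _ := e2
        _ = _ := by ring
    have e7 : 0 ≤ ε * (Real.log N * ∑ a ∈ Icc 1 H, c a ^ 2) := by positivity
    linarith
  · -- the singular series
    have hdd : ∀ a ∈ Icc 1 H, ∀ b ∈ Icc 1 H, b ≠ a →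
        (1 - η) * S (dst a b) ≤ (R P a b : ℝ) * ((P : ℝ) / φ ^ 2) := by
      intro a ha b hb hab
      have hd1 : 1 ≤ dst a b := by unfold dst; omega
      have hd2 : dst a b ≤ H := by
        have := (mem_Icc.1 ha).2
        have := (mem_Icc.1 hb).2
        unfold dst
        omega
      have hd3 : (dst a b : ℝ) ≤ Real.log N ^ C := le_trans (by exact_mod_cast hd2) hH
      have k1 := hS1 (zN N) (dst a b) hz hd1
      rw [← hR (zN N) a b] at k1
      have k2 := h4 N hN4 (dst a b) hd1 hd3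
      have k3 : 0 ≤ (R P a b : ℝ) * ((P : ℝ) / φ ^ 2) := by positivity
      have k4 : S (dst a b) ≤ (R P a b : ℝ) * ((P : ℝ) / φ ^ 2) * (1 + η) :=
        k1.trans (mul_le_mul_of_nonneg_left k2 k3)
      have k5 := S_nonneg hC (dst a b)
      have k6 : (1 - η) * S (dst a b) ≤ (1 - η) * ((R P a b : ℝ) * ((P : ℝ) / φ ^ 2) * (1 + η)) :=
        mul_le_mul_of_nonneg_left k4 (by linarith)
      have k7 : (1 - η) * ((R P a b : ℝ) * ((P : ℝ) / φ ^ 2) * (1 + η)) ≤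
          (R P a b : ℝ) * ((P : ℝ) / φ ^ 2) := by
        have : (1 - η) * (1 + η) ≤ 1 := by nlinarith
        nlinarith
      exact k6.trans k7
    have hSS : 0 ≤ ∑ a ∈ Icc 1 H, ∑ b ∈ (Icc 1 H).filter (fun b => b ≠ a),
        c a * c b * S (dst a b) := sum_nonneg fun a _ => sum_nonneg fun b _ =>
      mul_nonneg (mul_nonneg (hc a) (hc b)) (S_nonneg hC _)
    calc _ ≤ (1 - η) * ∑ a ∈ Icc 1 H, ∑ b ∈ (Icc 1 H).filter (fun b => b ≠ a),
        c a * c b * S (dst a b) := mul_le_mul_of_nonneg_right (by linarith) hSS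
      _ = ∑ a ∈ Icc 1 H, ∑ b ∈ (Icc 1 H).filter (fun b => b ≠ a),
        c a * c b * ((1 - η) * S (dst a b)) := by
          rw [mul_sum]
          refine sum_congr rfl fun a _ => ?_
          rw [mul_sum]
          exact sum_congr rfl fun b _ => by ring
      _ ≤ ∑ a ∈ Icc 1 H, ∑ b ∈ (Icc 1 H).filter (fun b => b ≠ a),
        c a * c b * ((R P a b : ℝ) * ((P : ℝ) / φ ^ 2)) :=
          sum_le_sum fun a ha => sum_le_sum fun b hb => mul_le_mul_of_nonneg_left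
            (hdd a ha b (mem_filter.1 hb).1 (mem_filter.1 hb).2) (mul_nonneg (hc a) (hc b))
      _ ≤ ∑ a ∈ Icc 1 H, ∑ b ∈ Icc 1 H, c a * c b * ((R P a b : ℝ) * ((P : ℝ) / φ ^ 2)) :=
          sum_le_sum fun a _ => sum_le_sum_of_subset_of_nonneg (filter_subset _ _) fun b _ _ =>
            mul_nonneg (mul_nonneg (hc a) (hc b)) (by positivity)
      _ = QQ N H c := by
          rw [hQQ, Q, sum_mul]
          refine sum_congr rfl fun a _ => ?_
          rw [sum_mul]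
          exact sum_congr rfl fun b _ => by ring

end Pool.Agent.L7h1.AS
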