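import Mathlib

/-!
# Project AS (MP_678834_nt): prime pairs whose difference lies in the difference set of an arbitrary set

THEOREM. For `C`, `ε > 0`, all large `x` and ALL nonnegative weights `c` on `[1, H]`, `H ≤ (log x)^C`:
`(log x)^2/x * ∑_{a ≠ b} c a c b π₂(x, |a-b|) ≥ (1-ε) ∑_{a ≠ b} c a c b 𝔖(|a-b|) - (1+ε) (log x) ∑ (c a)^2`.

Proof. `P` = product of the primes up to `z`, `4^z ≤ log x`. `F n = ∑ c a lam (n+a)`,
`G n = ∑ c b 1[(n+b, P) = 1]`, `lam` = `log` on the primes. Cauchy-Schwarz: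
`∑ F² ≥ (∑ F G)² / ∑ G²`; `∑ F G ≥ (1-ε) N/φ(P) Q` by Siegel-Walfisz, `∑ G² ≤ (N/P+1) Q`, with
`Q = ∑ c a c b R(a,b)`, `R(a,b)` = number of the `r mod P` with `r+a`, `r+b` coprime to `P`; and
`R(a,b) P/φ(P)² ≥ (1-ε) 𝔖(a-b)`.

Every part is `theorem s_X (hypotheses) : S_X` in `Pool/Agent/L7hNN/AS/X.lean`, namespace
`Pool.Agent.L7hNN.AS`.
-/

set_option autoImplicit false

namespace Pool.Agent.L7h1.AS

open Finset

/-- `log p` on the primes -/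
noncomputable def lam (n : ℕ) : ℝ := if n.Prime then Real.log n else 0

/-- indicator of `(m, P) = 1` -/
noncomputable def g (P m : ℕ) : ℝ := if m.Coprime P then 1 else 0

/-- the number of the classes `r mod P` with `r + a` and `r + b` coprime to `P` -/
def R (P a b : ℕ) : ℕ := ((range P).filter (fun r => (r + a).Coprime P ∧ (r + b).Coprime P)).card

noncomputable def F (H : ℕ) (c : ℕ → ℝ) (n : ℕ) : ℝ := ∑ a ∈ Icc 1 H, c a * lam (n + a)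

noncomputable def G (P H : ℕ) (c : ℕ → ℝ) (n : ℕ) : ℝ := ∑ b ∈ Icc 1 H, c b * g P (n + b)

noncomputable def Q (P H : ℕ) (c : ℕ → ℝ) : ℝ :=
  ∑ a ∈ Icc 1 H, ∑ b ∈ Icc 1 H, c a * c b * (R P a b : ℝ)

/-- The twin prime constant `C₂`. -/
noncomputable def C2 : ℝ := ∏' p : {p : ℕ // p.Prime ∧ 2 < p}, (1 - 1 / (((p.1 : ℕ) : ℝ) - 1) ^ 2)

/-- `𝔖(d)` for all `d` (zero for odd `d`) -/
noncomputable def S (d : ℕ) : ℝ := if Even d then
  2 * C2 * ∏ p ∈ d.primeFactors.filter (fun p : ℕ => 2 < p), (((p : ℝ) - 1) / ((p : ℝ) - 2)) else 0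

/-- the number of primes `p ≤ N` with `p - d` prime -/
def pi2 (N d : ℕ) : ℕ := ((Icc 1 N).filter (fun p : ℕ => p.Prime ∧ (p - d).Prime)).card

/-- the distance of `a` and `b` -/
def dst (a b : ℕ) : ℕ := (a - b) + (b - a)

/-- `∏_{p ≤ z} (p - ν_p)`, `ν_p = 1` if `p` divides `d` and `2` otherwise -/
noncomputable def prodR (z d : ℕ) : ℝ :=
  ∏ p ∈ (range (z + 1)).filter Nat.Prime, ((p : ℝ) - (if p ∣ d then 1 else 2))

/-- the parameter: `4 ^ z ≤ log N` -/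
noncomputable def zN (N : ℕ) : ℕ := Nat.log 4 ⌊Real.log N⌋₊

/-- **GSQ** (60 lines, finite sums). Expand the square: `∑_{n ≤ N} (G n)²` is the sum over `a, b` of
`c a c b` times the number of the `n ∈ [1, N]` with `n+a`, `n+b` coprime to `P`. This condition is
periodic modulo `P`, every block of `P` consecutive `n` has `R P a b` of them, and `[1, N]` is covered
by `N/P + 1` blocks (`Nat.count_modEq_card`, or: `[1,N] ⊆ [1, P (N/P + 1)]` and induction on the number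
of the blocks with `Function.Periodic`, `Nat.filter_Ico_card_eq_of_periodic`). -/
def S_GSQ : Prop := ∀ (P H N : ℕ) (c : ℕ → ℝ), 1 ≤ P → (∀ a, 0 ≤ c a) →
  ∑ n ∈ Icc 1 N, G P H c n ^ 2 ≤ ((N : ℝ) / P + 1) * Q P H c

/-- **QLB** (50 lines). `Q = ∑_{r < P} (∑_a c a g P (r+a))²`, Cauchy-Schwarz over `r` and
`∑_{r < P} g P (r + a) = φ(P)` for every `a` (periodicity: `Nat.filter_coprime_Ico_eq_totient`). -/
def S_QLB : Prop := ∀ (P H : ℕ) (c : ℕ → ℝ), 1 ≤ P → (∀ a, 0 ≤ c a) →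
  (Nat.totient P : ℝ) ^ 2 * (∑ a ∈ Icc 1 H, c a) ^ 2 ≤ P * Q P H c

/-- **SWT** (Siegel-Walfisz; helper1: it is `Pool.Agent.L7h69.SF.swt` in the library). -/
def S_SWT : Prop := ∀ K U : ℕ, ∃ X₀ : ℕ, ∀ N : ℕ, X₀ ≤ N → ∀ m : ℕ, 1 ≤ m →
  (m : ℝ) ≤ Real.log N ^ K → ∀ r : ℕ, r.Coprime m →
    |(∑ n ∈ (Icc 1 N).filter (fun n => n ≡ r [MOD m]), lam n) - N / (Nat.totient m : ℝ)| ≤
      N / Real.log N ^ U

/-- **TAB** (100 lines, assumes S_SWT). For `a, b ≤ H ≤ (log N)^C`, `P ≤ log N`: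
`∑_{n ≤ N} lam (n+a) g P (n+b) ≥ N R(P,a,b)/φ(P) - 2 N/(log N)^2`. Proof: put `m = n + a`; the terms
`m ≤ a` are at most `a log (a+1) ≤ N/(log N)^2`; so the sum is at least
`∑_{m ≤ N} lam m 1[(m + b - a, P) = 1] - N/(log N)^2` (write the condition with `m + b + k P - a`,
or with `r` below); split the `m` into the classes `r + a mod P`, `r < P` with `r + a`, `r + b` coprime to
`P` (drop the other classes: `lam ≥ 0`): `R(P,a,b) ≤ P ≤ log N` classes, each gives at least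
`N/φ(P) - N/(log N)^3` by SWT with `K = 1`, `U = 3`. -/
def S_TAB : Prop := ∀ C : ℕ, ∃ X₀ : ℕ, ∀ N : ℕ, X₀ ≤ N → ∀ P H : ℕ, 1 ≤ P →
  (P : ℝ) ≤ Real.log N → (H : ℝ) ≤ Real.log N ^ C → ∀ a b : ℕ, a ≤ H → b ≤ H →
    (N : ℝ) * R P a b / Nat.totient P - 2 * N / Real.log N ^ 2 ≤
      ∑ n ∈ Icc 1 N, lam (n + a) * g P (n + b)

/-- **FG** (60 lines, assumes S_TAB S_QLB). `∑ F G = ∑ c a c b (sum of TAB)
≥ N/φ(P) Q - 2 N/(log N)^2 (∑ c)²`, and `(∑ c)² ≤ P Q/φ(P)²` with `P/φ(P) ≤ P ≤ log N`, so the error is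
at most `(2/log N) (N/φ(P)) Q ≤ ε (N/φ(P)) Q`. -/
def S_FG : Prop := ∀ (C : ℕ) (ε : ℝ), 0 < ε → ∃ X₀ : ℕ, ∀ N : ℕ, X₀ ≤ N → ∀ P H : ℕ, 1 ≤ P →
  (P : ℝ) ≤ Real.log N → (H : ℝ) ≤ Real.log N ^ C → ∀ c : ℕ → ℝ, (∀ a, 0 ≤ c a) →
    (1 - ε) * ((N : ℝ) / Nat.totient P) * Q P H c ≤ ∑ n ∈ Icc 1 N, F H c n * G P H c n

/-- **DIA** (50 lines, assumes S_SWT, used with `m = 1`). `lam (n+a)² ≤ log (N+H) lam (n+a)`, the sum over
`n` is at most `∑_{m ≤ N+H} lam m ≤ (1+ε) N`, and `log (N+H) ≤ (1+ε) log N`, `H ≤ (log N)^C ≤ ε N`. -/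
def S_DIA : Prop := ∀ (C : ℕ) (ε : ℝ), 0 < ε → ∃ X₀ : ℕ, ∀ N : ℕ, X₀ ≤ N → ∀ a : ℕ,
  (a : ℝ) ≤ Real.log N ^ C → ∑ n ∈ Icc 1 N, lam (n + a) ^ 2 ≤ (1 + ε) * N * Real.log N

/-- **OFF** (70 lines). For `a ≠ b` both at most `(log N)^C`: `lam (n+a) lam (n+b) ≤ log² (N + (log N)^C)`
if both are primes and zero otherwise; the map `n ↦ n + max a b` sends the `n ≤ N` with `n+a`, `n+b` prime
injectively to the primes `p ≤ N + max a b` with `p - dst a b` prime, so their number is at most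
`pi2 N (dst a b) + (log N)^C`; `log (N + (log N)^C)² ≤ (1+ε) (log N)²` and
`(1+ε) (log N)^(C+2) ≤ N/(log N)^2`. -/
def S_OFF : Prop := ∀ (C : ℕ) (ε : ℝ), 0 < ε → ∃ X₀ : ℕ, ∀ N : ℕ, X₀ ≤ N → ∀ a b : ℕ, a ≠ b →
  (a : ℝ) ≤ Real.log N ^ C → (b : ℝ) ≤ Real.log N ^ C →
    ∑ n ∈ Icc 1 N, lam (n + a) * lam (n + b) ≤
      (1 + ε) * Real.log N ^ 2 * pi2 N (dst a b) + N / Real.log N ^ 2

/-- **RES** (120 lines, Chinese remainder theorem). `R` is multiplicative: for `P = primorial z`,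
`R P a b = ∏_{p ≤ z} (p - ν_p)`. Induction on `z` (or on a finite set of primes with product `P`): for `p`
not dividing `P`, `r mod P p` corresponds to `(r mod P, r mod p)` (`Nat.chineseRemainder`,
`ZMod.chineseRemainder`), coprimality to `P p` is coprimality to `P` and to `p`, and exactly
`p - ν_p` classes `r mod p` have `p ∤ r + a`, `p ∤ r + b`. -/
def S_RES : Prop := ∀ z a b : ℕ, (R (primorial z) a b : ℝ) = prodR z (dst a b)

/-- **C2B** (50 lines). The partial products of `C₂` are larger: `0 < C₂` and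
`C₂ ≤ ∏_{2 < p ≤ z} (1 - 1/(p-1)²)` for every `z` (all factors are in `(0, 1)`; the product converges:
`Multipliable` from summability of `1/(p-1)²`, `Real.multipliable_one_add_of_summable` or similar; the
library of the page has the positivity: grep `C2_pos`). -/
def S_C2B : Prop := 0 < C2 ∧ ∀ z : ℕ,
  C2 ≤ ∏ p ∈ (range (z + 1)).filter (fun p => p.Prime ∧ 2 < p), (1 - 1 / ((p : ℝ) - 1) ^ 2)

/-- **SG1** (100 lines, assumes S_C2B). For `z ≥ 2`, `d ≥ 1`: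
`S d ≤ prodR z d * (primorial z)/φ(primorial z)² * ∏_{p ∣ d, p > z} (p-1)/(p-2)`.
Proof: `primorial z/φ² = ∏_{p ≤ z} p/(p-1)²`; for odd `d` both sides: the left side is `0`, the right side
`≥ 0`; for even `d` the factor at `2` is `(2-1) * 2/1 = 2`; for `2 < p ≤ z`, `p ∤ d`:
`(p-2) p/(p-1)² = 1 - 1/(p-1)²`; for `p ∣ d`: `(p-1) p/(p-1)² = (1 - 1/(p-1)²) (p-1)/(p-2)`; then C2B. -/
def S_SG1 : Prop := ∀ z d : ℕ, 2 ≤ z → 1 ≤ d → S d ≤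
  prodR z d * ((primorial z : ℝ) / (Nat.totient (primorial z) : ℝ) ^ 2) *
    ∏ p ∈ d.primeFactors.filter (fun p => z < p), (((p : ℝ) - 1) / ((p : ℝ) - 2))

/-- **TAIL** (80 lines). For `d ≤ (log N)^C`, `z = zN N`, the product over the primes `p > z` dividing `d` is
at most `1 + ε`: `(p-1)/(p-2) = 1 + 1/(p-2) ≤ exp (1/(z-1))`, the number `k` of these primes satisfies
`z^k ≤ d ≤ (log N)^C` and `4 ^ (z+1) > log N - 1`, so `k log z ≤ C log log N ≤ C (z + 2) log 4`, and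
`k/(z-1) ≤ C log 4 (z+2)/((z-1) log z) → 0` as `z → ∞`. -/
def S_TAIL : Prop := ∀ (C : ℕ) (ε : ℝ), 0 < ε → ∃ X₀ : ℕ, ∀ N : ℕ, X₀ ≤ N → ∀ d : ℕ, 1 ≤ d →
  (d : ℝ) ≤ Real.log N ^ C →
    ∏ p ∈ d.primeFactors.filter (fun p => zN N < p), (((p : ℝ) - 1) / ((p : ℝ) - 2)) ≤ 1 + ε

/-- **PZ** (30 lines). `primorial_le_4_pow`, `Nat.pow_log_le_self`: `primorial (zN N) ≤ 4 ^ zN N ≤ log N`, and
`zN N → ∞`. -/
def S_PZ : Prop := ∀ Z : ℕ, ∃ X₀ : ℕ, ∀ N : ℕ, X₀ ≤ N → Z ≤ zN N ∧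
  1 ≤ primorial (zN N) ∧ (primorial (zN N) : ℝ) ≤ Real.log N

/-- **CORE** (helper1). Cauchy-Schwarz and the parts above. `QQ = Q P/φ(P)²` with `P = primorial (zN N)`. -/
noncomputable def QQ (N H : ℕ) (c : ℕ → ℝ) : ℝ := Q (primorial (zN N)) H c *
  ((primorial (zN N) : ℝ) / (Nat.totient (primorial (zN N)) : ℝ) ^ 2)

def S_CORE : Prop := ∀ (C : ℕ) (ε : ℝ), 0 < ε → ∃ X₀ : ℕ, ∀ N : ℕ, X₀ ≤ N → ∀ H : ℕ,
  (H : ℝ) ≤ Real.log N ^ C → ∀ c : ℕ → ℝ, (∀ a, 0 ≤ c a) →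
    (1 - ε) * QQ N H c - (1 + ε) * Real.log N * ∑ a ∈ Icc 1 H, c a ^ 2 ≤
      Real.log N ^ 2 / N * ∑ a ∈ Icc 1 H, ∑ b ∈ (Icc 1 H).filter (fun b => b ≠ a),
        c a * c b * (pi2 N (dst a b) : ℝ) ∧
    (∑ a ∈ Icc 1 H, c a) ^ 2 ≤ QQ N H c ∧
    (1 - ε) * ∑ a ∈ Icc 1 H, ∑ b ∈ (Icc 1 H).filter (fun b => b ≠ a), c a * c b * S (dst a b) ≤
      QQ N H c

end Pool.Agent.L7h1.AS
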