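import Pool.Agent.L7h1.AS.Stm

/-!
# Project AS, second file: sets
-/

set_option autoImplicit false

namespace Pool.Agent.L7h1.AS

open Finset

/-- the sum of `f (b - a)` over the pairs `a < b` of elements of `A` -/
def pairSum (A : Finset ℕ) (f : ℕ → ℝ) : ℝ := ∑ a ∈ A, ∑ b ∈ A.filter (fun b => a < b), f (b - a)

/-- **SETS** (helper1). -/
def S_SETS : Prop := ∀ (C : ℕ) (ε : ℝ), 0 < ε → ∃ X : ℝ, ∀ x : ℝ, X ≤ x → ∀ L : ℝ, 0 < L →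
  ∀ A : Finset ℕ, (∀ a ∈ A, 1 ≤ a ∧ (a : ℝ) ≤ Real.log x ^ C) → L * Real.log x ≤ A.card →
    (1 - 1 / L - ε) * pairSum A S ≤
      Real.log x ^ 2 / x * pairSum A (fun d => (pi2 ⌊x⌋₊ d : ℝ))

/-- **EXI** (80 lines, assumes S_SETS, S_C2B). Some difference reaches the prediction. Use SETS with `ε/2`.
If all pairs `a < b` of `A` with `b - a` even fail, then
`(log x)²/x * (even part of pairSum pi2) ≤ (1 - 1/L - ε) pairSum A S` (`S` is zero on odd numbers; if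
`1 - 1/L - ε ≤ 0` take any even pair). For odd `d`, `pi2 N d ≤ 1` (`p - d = 2`), so the odd part is at most
`(log x)²/x |A|²`. So `(ε/2) pairSum A S ≤ (log x)²/x |A|²`. But `S d ≥ 2 C2 > 0` for even `d ≥ 2` (the
factors `(p-1)/(p-2)` are at least `1`), and at least `|A|²/8` pairs have equal parity (`|A| ≥ log x ≥ 4`;
`a0² + a1² ≥ |A|²/2`), so `pairSum A S ≥ (C2/4) |A|²`: a contradiction for large `x`. -/
def S_EXI : Prop := ∀ (C : ℕ) (ε : ℝ), 0 < ε → ∃ X : ℝ, ∀ x : ℝ, X ≤ x → ∀ L : ℝ, 1 ≤ L →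
  ∀ A : Finset ℕ, (∀ a ∈ A, 1 ≤ a ∧ (a : ℝ) ≤ Real.log x ^ C) → L * Real.log x ≤ A.card →
    ∃ a ∈ A, ∃ b ∈ A, a < b ∧ Even (b - a) ∧
      (1 - 1 / L - ε) * (S (b - a) * x / Real.log x ^ 2) ≤ (pi2 ⌊x⌋₊ (b - a) : ℝ)

/-- **UPB** (from the library): upper bound sieve for prime pairs, uniform in the difference. -/
def S_UPB (K : ℝ) : Prop := ∀ C : ℕ, ∃ X₀ : ℕ, ∀ N : ℕ, X₀ ≤ N → ∀ d : ℕ, 1 ≤ d → Even d →
  (d : ℝ) ≤ Real.log N ^ C → (pi2 N d : ℝ) ≤ K * (S d * N / Real.log N ^ 2)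

/-- **PROP** (60 lines, assumes S_SETS, S_C2B and `S_UPB K`). The pairs of right order carry a positive
proportion: split `pairSum pi2` into the good even pairs (`≤ K (1+ε) S x/(log x)²`), the bad even pairs
(`≤ κ S x/(log x)²`) and the odd pairs (`≤ 1` each, at most `(log x)²/x |A|² ≤ ε pairSum A S` as in EXI). -/
def S_PROP (K : ℝ) : Prop := ∀ (C : ℕ) (ε : ℝ), 0 < ε → ∃ X : ℝ, ∀ x : ℝ, X ≤ x → ∀ L : ℝ, 1 ≤ L →
  ∀ κ : ℝ, 0 ≤ κ →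
  ∀ A : Finset ℕ, (∀ a ∈ A, 1 ≤ a ∧ (a : ℝ) ≤ Real.log x ^ C) → L * Real.log x ≤ A.card →
    (1 - 1 / L - κ - ε) * pairSum A S ≤ K * pairSum A (fun d =>
      if κ * (S d * x / Real.log x ^ 2) ≤ (pi2 ⌊x⌋₊ d : ℝ) then S d else 0)

end Pool.Agent.L7h1.AS
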