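import Pool.Agent.L7h1.AS.Stm
import Pool.Agent.L7h69.SF.Sw

set_option autoImplicit false

namespace Pool.Agent.L7h1.AS

theorem s_SWT : S_SWT := by
  intro K U
  obtain ⟨X₀, h⟩ := Pool.Agent.L7h69.SF.swt U K
  refine ⟨X₀, fun N hN m hm hmK r hr => ?_⟩
  exact h N hN N le_rfl m hm hmK r hr

end Pool.Agent.L7h1.AS
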